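import Pool.Agent.Helper24.KK.GoalsA

/-!
# Project KK (MP_9a4587_an), goal RAT
-/

set_option autoImplicit false

namespace Pool.Agent.Helper9.KK

open Finset Pool.Agent.Helper24.KK

/-- `C(R, l) * l * (R - l) = R * (R - 1) * C(R-2, l-1)` with `l = a + 1`, `R = a + b + 2`. -/
theorem choose_id (a b : ℕ) :
    (a + b + 2).choose (a + 1) * (a + 1) * (b + 1)
      = (a + b + 2) * (a + b + 1) * (a + b).choose a := by
  have h1 : (a + b + 1 + 1) * (a + b + 1).choose a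
      = (a + b + 1 + 1).choose (a + 1) * (a + 1) := Nat.add_one_mul_choose_eq (a + b + 1) a
  have h2 : (a + b).choose a * (a + b + 1) = (a + b + 1).choose a * (a + b + 1 - a) :=
    Nat.choose_mul_succ_eq (a + b) a
  have h3 : a + b + 1 - a = b + 1 := by omega
  rw [h3] at h2
  calc (a + b + 2).choose (a + 1) * (a + 1) * (b + 1)
      = ((a + b + 1 + 1) * (a + b + 1).choose a) * (b + 1) := by rw [h1]
    _ = (a + b + 2) * ((a + b + 1).choose a * (b + 1)) := by ring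
    _ = (a + b + 2) * ((a + b).choose a * (a + b + 1)) := by rw [h2]
    _ = (a + b + 2) * (a + b + 1) * (a + b).choose a := by ring

/-- RAT. -/
theorem rat : RAT := by
  intro R l hl hR
  obtain ⟨a, rfl⟩ : ∃ a, l = a + 1 := ⟨l - 1, by omega⟩
  obtain ⟨b, rfl⟩ : ∃ b, R = a + b + 2 := ⟨R - a - 2, by omega⟩
  have hab : a ≤ b := by omega
  have hc : 0 < (a + b).choose a := Nat.choose_pos (by omega)
  have hid := choose_id a b
  have hidR : (((a + b + 2).choose (a + 1) : ℕ) : ℝ) * ((a : ℝ) + 1) * ((b : ℝ) + 1)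
      = ((a : ℝ) + b + 2) * ((a : ℝ) + b + 1) * (((a + b).choose a : ℕ) : ℝ) := by
    exact_mod_cast hid
  have habR : (a : ℝ) ≤ b := by exact_mod_cast hab
  have ha0 : (0 : ℝ) ≤ a := Nat.cast_nonneg a
  have hb0 : (0 : ℝ) ≤ b := Nat.cast_nonneg b
  have hcR : (0 : ℝ) < (((a + b).choose a : ℕ) : ℝ) := by exact_mod_cast hc
  have hdz : dz (a + b + 2) (a + 1) = (((a + b).choose a : ℕ) : ℝ) ^ 2 := by
    unfold dz
    rw [show a + b + 2 - 2 = a + b by omega, show a + 1 - 1 = a by omega]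
  have hmain : (((a + b + 2).choose (a + 1) : ℕ) : ℝ) * ((a : ℝ) + 1)
      ≤ 2 * ((a : ℝ) + b + 2) * (((a + b).choose a : ℕ) : ℝ) := by
    have hC0 : (0 : ℝ) ≤ (((a + b + 2).choose (a + 1) : ℕ) : ℝ) := Nat.cast_nonneg _
    have hb1 : (0 : ℝ) < (b : ℝ) + 1 := by linarith
    refine le_of_mul_le_mul_right ?_ hb1
    rw [hidR]
    have h2 : ((a : ℝ) + b + 1) ≤ 2 * ((b : ℝ) + 1) := by linarith
    have h3 : (0 : ℝ) ≤ ((a : ℝ) + b + 2) * (((a + b).choose a : ℕ) : ℝ) := by positivity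
    nlinarith [mul_le_mul_of_nonneg_left h2 h3]
  refine ⟨?_, ?_⟩
  · rw [hdz]
    have ha1 : (0 : ℝ) < (a : ℝ) + 1 := by linarith
    have hq : (((a + b + 2).choose (a + 1) : ℕ) : ℝ)
        ≤ 2 * (((a + b + 2 : ℕ) : ℝ) / ((a + 1 : ℕ) : ℝ)) * (((a + b).choose a : ℕ) : ℝ) := by
      push_cast
      rw [← mul_div_assoc, div_mul_eq_mul_div, le_div_iff₀ ha1]
      exact hmain
    have hC0 : (0 : ℝ) ≤ (((a + b + 2).choose (a + 1) : ℕ) : ℝ) := Nat.cast_nonneg _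
    calc (((a + b + 2).choose (a + 1) : ℕ) : ℝ) ^ 2
        ≤ (2 * (((a + b + 2 : ℕ) : ℝ) / ((a + 1 : ℕ) : ℝ)) * (((a + b).choose a : ℕ) : ℝ)) ^ 2 :=
          pow_le_pow_left₀ hC0 hq 2
      _ = 4 * (((a + b + 2 : ℕ) : ℝ) / ((a + 1 : ℕ) : ℝ)) ^ 2
            * (((a + b).choose a : ℕ) : ℝ) ^ 2 := by ring
  · rw [hdz]
    positivity

end Pool.Agent.Helper9.KK
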